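import Pool.Agent.Helper57.QZ.Stmts

set_option autoImplicit false

namespace Pool.Agent.Helper77.QZ

open MeasureTheory Set Filter Topology Pool.Agent.Helper57.QZ

theorem norm_sq (a φ : ℝ) :
    ‖(1 - Complex.exp (-((φ : ℂ) * Complex.I)) * (a : ℂ))‖ ^ 2 =
      1 - 2 * a * Real.cos φ + a ^ 2 := by
  have e1 : -((φ : ℂ) * Complex.I) = ((-φ : ℝ) : ℂ) * Complex.I := by push_cast; ring
  rw [e1, Complex.sq_norm, Complex.normSq_apply]
  have h1 : (1 - Complex.exp (((-φ : ℝ) : ℂ) * Complex.I) * (a : ℂ)).re = 1 - Real.cos φ * a := by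
    rw [Complex.sub_re, Complex.one_re, Complex.re_mul_ofReal, Complex.exp_ofReal_mul_I_re,
      Real.cos_neg]
  have h2 : (1 - Complex.exp (((-φ : ℝ) : ℂ) * Complex.I) * (a : ℂ)).im = Real.sin φ * a := by
    rw [Complex.sub_im, Complex.one_im, Complex.im_mul_ofReal, Complex.exp_ofReal_mul_I_im,
      Real.sin_neg]
    ring
  rw [h1, h2]
  have := Real.sin_sq_add_cos_sq φ
  nlinarith

theorem two_le (a : ℝ) (ha : 0 ≤ a) (ha1 : a < 1) :
    2 * a ≤ Real.log (1 + a) - Real.log (1 - a) := by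
  have h := Real.hasSum_log_sub_log_of_abs_lt_one (x := a) (by rw [abs_of_nonneg ha]; exact ha1)
  have h2 := sum_le_hasSum {0} (fun i _ => by positivity) h
  rw [Finset.sum_singleton] at h2
  norm_num at h2
  linarith

theorem per (a φ : ℝ) (ha : 0 < a) (ha2 : a ^ 2 ≤ 1 / 2) :
    (1 - Complex.exp (-((φ : ℂ) * Complex.I)) * (a : ℂ))⁻¹ ≠ 0 ∧
    Real.log ‖(1 - Complex.exp (-((φ : ℂ) * Complex.I)) * (a : ℂ))⁻¹‖ ≤
      a * Real.cos φ + (-Real.log (1 - a) - a) ∧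
    a * Real.cos φ + (-Real.log (1 - a) - a) -
      Real.log ‖(1 - Complex.exp (-((φ : ℂ) * Complex.I)) * (a : ℂ))⁻¹‖ ≤
      16 * (a ^ 2 * (1 - Real.cos φ)) ∧ 0 ≤ -Real.log (1 - a) - a := by
  have ha1 : a < 0.7072 := by
    by_contra hc
    push Not at hc
    nlinarith
  have hc1 := Real.cos_le_one φ
  have hc2 := Real.neg_one_le_cos φ
  obtain ⟨c, hc⟩ : ∃ c, c = Real.cos φ := ⟨_, rfl⟩
  have hns := norm_sq a φ
  rw [← hc] at hns hc1 hc2
  rw [← hc]
  have hpos : 0 < 1 - 2 * a * c + a ^ 2 := by nlinarith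
  obtain ⟨z, hz⟩ : ∃ z : ℂ, z = 1 - Complex.exp (-((φ : ℂ) * Complex.I)) * (a : ℂ) := ⟨_, rfl⟩
  rw [← hz] at hns
  rw [← hz]
  have hz0 : z ≠ 0 := by
    intro h
    rw [h, norm_zero] at hns
    norm_num at hns
    linarith
  have hzn : 0 < ‖z‖ := norm_pos_iff.2 hz0
  have hlog : Real.log ‖z⁻¹‖ = -(1 / 2 * Real.log (1 - 2 * a * c + a ^ 2)) := by
    rw [norm_inv, Real.log_inv, ← hns, Real.log_pow]
    push_cast
    ring
  have h1a : 0 < 1 - a := by linarith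
  -- the quotient
  obtain ⟨w, hw⟩ : ∃ w, w = 1 - c := ⟨_, rfl⟩
  have hw0 : 0 ≤ w := by linarith
  have hw2 : w ≤ 2 := by linarith
  have hk : Real.log (1 - 2 * a * c + a ^ 2) =
      2 * Real.log (1 - a) + Real.log (1 + 2 * a / (1 - a) ^ 2 * w) := by
    have e1 : 1 - 2 * a * c + a ^ 2 = (1 - a) ^ 2 * (1 + 2 * a / (1 - a) ^ 2 * w) := by
      rw [hw]
      field_simp
      ring
    have e2 : 0 < 1 + 2 * a / (1 - a) ^ 2 * w := by positivity
    rw [e1, Real.log_mul (by positivity) e2.ne', Real.log_pow]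
    push_cast
    ring
  obtain ⟨k, hk1⟩ : ∃ k, k = 2 * a / (1 - a) ^ 2 := ⟨_, rfl⟩
  rw [← hk1] at hk
  have hk0 : 0 < k := by rw [hk1]; positivity
  have hlow : w * a ≤ 1 / 2 * Real.log (1 + k * w) := by
    have m1 : (1 : ℝ) ∈ Ioi (0 : ℝ) := by rw [mem_Ioi]; norm_num
    have m2 : (1 + 2 * k : ℝ) ∈ Ioi (0 : ℝ) := by rw [mem_Ioi]; positivity
    have w1 : (0 : ℝ) ≤ 1 - w / 2 := by linarith
    have w2 : (0 : ℝ) ≤ w / 2 := by linarith
    have w3 : 1 - w / 2 + w / 2 = 1 := by ring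
    have hcv := strictConcaveOn_log_Ioi.concaveOn.2 m1 m2 w1 w2 w3
    rw [Real.log_one, smul_eq_mul, smul_eq_mul, smul_eq_mul, smul_eq_mul] at hcv
    have e1 : (1 - w / 2) * 1 + w / 2 * (1 + 2 * k) = 1 + k * w := by ring
    rw [e1] at hcv
    have e2 : Real.log (1 + 2 * k) = 2 * (Real.log (1 + a) - Real.log (1 - a)) := by
      have e3 : 1 + 2 * k = (1 + a) ^ 2 / (1 - a) ^ 2 := by
        rw [hk1]
        field_simp
        ring
      rw [e3, Real.log_div (by positivity) (by positivity), Real.log_pow, Real.log_pow]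
      push_cast
      ring
    have e4 := two_le a ha.le (by linarith)
    rw [e2] at hcv
    have e5 : w * (2 * a) ≤ w * (Real.log (1 + a) - Real.log (1 - a)) :=
      mul_le_mul_of_nonneg_left e4 hw0
    linarith
  have hup : 1 / 2 * Real.log (1 + k * w) - w * a ≤ 16 * (a ^ 2 * w) := by
    have e1 : Real.log (1 + k * w) ≤ k * w := by
      have := Real.log_le_sub_one_of_pos (x := 1 + k * w) (by positivity)
      linarith
    have e2 : k / 2 - a ≤ 16 * a ^ 2 := by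
      have e3 : k / 2 - a = a * (2 * a - a ^ 2) / (1 - a) ^ 2 := by
        rw [hk1]
        field_simp
        ring
      rw [e3, div_le_iff₀ (by positivity)]
      have e4 : 2 * a - a ^ 2 ≤ 16 * a * (1 - a) ^ 2 := by
        have e5 : 2 - a ≤ 16 * (1 - a) ^ 2 := by nlinarith
        nlinarith
      nlinarith
    have e6 : w * (k / 2 - a) ≤ w * (16 * a ^ 2) := mul_le_mul_of_nonneg_left e2 hw0
    nlinarith
  have hKy : 0 ≤ -Real.log (1 - a) - a := by
    have := Real.log_le_sub_one_of_pos h1a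
    linarith
  refine ⟨inv_ne_zero hz0, ?_, ?_, hKy⟩
  · rw [hlog, hk]
    have : c = 1 - w := by linarith
    rw [this]
    nlinarith
  · rw [hlog, hk]
    have : c = 1 - w := by linarith
    rw [← hw, this]
    nlinarith

theorem aa_pos (σ : ℝ) {y : ℕ} (p : Pr y) : 0 < aa σ p := by
  unfold aa
  have hp : ((p : ℕ)).Prime := (Nat.mem_primesBelow.1 p.2).2
  exact Real.rpow_pos_of_pos (by exact_mod_cast hp.pos) _

theorem aa_sq (σ : ℝ) (hσ : 1 / 2 ≤ σ) {y : ℕ} (p : Pr y) : aa σ p ^ 2 ≤ 1 / 2 := by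
  have hp : ((p : ℕ)).Prime := (Nat.mem_primesBelow.1 p.2).2
  have hp2 : (2 : ℝ) ≤ ((p : ℕ) : ℝ) := by exact_mod_cast hp.two_le
  unfold aa
  rw [← Real.rpow_natCast, ← Real.rpow_mul (by linarith)]
  calc ((p : ℕ) : ℝ) ^ (-σ * ((2 : ℕ) : ℝ)) ≤ ((p : ℕ) : ℝ) ^ (-1 : ℝ) := by
        apply Real.rpow_le_rpow_of_exponent_le (by linarith)
        push_cast
        linarith
    _ = (((p : ℕ) : ℝ))⁻¹ := Real.rpow_neg_one _
    _ ≤ (2 : ℝ)⁻¹ := inv_anti₀ (by norm_num) hp2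
    _ = 1 / 2 := by norm_num

theorem st_dt1 : ST_DT1 := by
  intro y σ φ hσ
  have h := fun p : Pr y => per (aa σ p) (φ p) (aa_pos σ p) (aa_sq σ hσ p)
  have hZ : Zy y σ φ ≠ 0 := by
    unfold Zy
    exact Finset.prod_ne_zero_iff.2 fun p _ => (h p).1
  have hlog : Real.log ‖Zy y σ φ‖ = ∑ p : Pr y,
      Real.log ‖(1 - Complex.exp (-((φ p : ℂ) * Complex.I)) * (aa σ p : ℂ))⁻¹‖ := by
    unfold Zy
    rw [norm_prod, Real.log_prod]
    intro p _
    exact norm_ne_zero_iff.2 (h p).1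
  have hSK : Sy y σ φ + Ky y σ = ∑ p : Pr y,
      (aa σ p * Real.cos (φ p) + (-Real.log (1 - aa σ p) - aa σ p)) := by
    unfold Sy Ky
    rw [← Finset.sum_add_distrib]
  refine ⟨hZ, ?_, ?_, ?_⟩
  · rw [hlog, hSK]
    exact Finset.sum_le_sum fun p _ => (h p).2.1
  · rw [hlog, hSK, ← Finset.sum_sub_distrib, Finset.mul_sum]
    exact Finset.sum_le_sum fun p _ => (h p).2.2.1
  · unfold Ky
    exact Finset.sum_nonneg fun p _ => (h p).2.2.2

end Pool.Agent.Helper77.QZ
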